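import Pool.Agent.H75.SQ.Basic

/-!
# Quantum statistical algorithms: the hybrid argument
-/

set_option autoImplicit false

namespace Pool.Agent.H33.SQ.HYA

open Finset Matrix Pool.Agent.H75.SQ

theorem nm_eq {ι : Type} [Fintype ι] (a : ι → ℂ) : nm a = ‖(WithLp.toLp 2 a : EuclideanSpace ℂ ι)‖ := by
  rw [EuclideanSpace.norm_eq]
  rfl

theorem nm_add_le {ι : Type} [Fintype ι] (a b : ι → ℂ) : nm (fun x => a x + b x) ≤ nm a + nm b := by
  rw [nm_eq, nm_eq, nm_eq]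
  have h : (WithLp.toLp 2 (fun x => a x + b x) : EuclideanSpace ℂ ι) =
      WithLp.toLp 2 a + WithLp.toLp 2 b := rfl
  rw [h]
  exact norm_add_le _ _

theorem nm_sq {ι : Type} [Fintype ι] (a : ι → ℂ) : nm a ^ 2 = ∑ x, ‖a x‖ ^ 2 := by
  unfold nm
  rw [Real.sq_sqrt]
  exact Finset.sum_nonneg fun _ _ => sq_nonneg _

theorem nm_nonneg {ι : Type} [Fintype ι] (a : ι → ℂ) : 0 ≤ nm a := Real.sqrt_nonneg _

theorem dot_self {ι : Type} [Fintype ι] (a : ι → ℂ) : star a ⬝ᵥ a = ((∑ x, ‖a x‖ ^ 2 : ℝ) : ℂ) := by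
  unfold dotProduct
  push_cast
  refine Finset.sum_congr rfl fun x _ => ?_
  rw [Pi.star_apply]
  have h := Complex.conj_mul' (a x)
  rw [← h]
  rfl

theorem unitary_sq {ι : Type} [Fintype ι] [DecidableEq ι] (U : Matrix ι ι ℂ)
    (hU : U ∈ unitaryGroup ι ℂ) (a : ι → ℂ) :
    ∑ x, ‖(U.mulVec a) x‖ ^ 2 = ∑ x, ‖a x‖ ^ 2 := by
  have h1 : star (U.mulVec a) ⬝ᵥ (U.mulVec a) = star a ⬝ᵥ a := by
    rw [Matrix.star_mulVec, Matrix.dotProduct_mulVec, Matrix.vecMul_vecMul]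
    have h2 : Uᴴ * U = 1 := by
      have := Matrix.mem_unitaryGroup_iff'.1 hU
      rwa [Matrix.star_eq_conjTranspose] at this
    rw [h2, Matrix.vecMul_one]
  rw [dot_self, dot_self] at h1
  exact_mod_cast h1

theorem unitary_nm {ι : Type} [Fintype ι] [DecidableEq ι] (U : Matrix ι ι ℂ)
    (hU : U ∈ unitaryGroup ι ℂ) (a : ι → ℂ) : nm (U.mulVec a) = nm a := by
  unfold nm
  rw [unitary_sq U hU a]

section A

variable {γ : Type} [Fintype γ] [DecidableEq γ] {q m : ℕ} (A : Alg q m γ)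

theorem qu_row (v : Fin A.a → ℝ) (x : Fin A.a × Fin A.d → ℂ) (i : Fin A.a) :
    ∑ c, ‖A.qu v x (i, c)‖ ^ 2 = ∑ c, ‖x (i, c)‖ ^ 2 :=
  unitary_sq (A.R i (v i)) (A.ur i (v i)) (fun c => x (i, c))

theorem qu_nm (v : Fin A.a → ℝ) (x : Fin A.a × Fin A.d → ℂ) : nm (A.qu v x) = nm x := by
  unfold nm
  rw [Fintype.sum_prod_type, Fintype.sum_prod_type]
  rw [Finset.sum_congr rfl fun i _ => qu_row A v x i]

theorem qu_sub (v : Fin A.a → ℝ) (x y : Fin A.a × Fin A.d → ℂ) (z : Fin A.a × Fin A.d) :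
    A.qu v x z - A.qu v y z = A.qu v (fun s => x s - y s) z := by
  unfold Alg.qu
  rw [← Finset.sum_sub_distrib]
  exact Finset.sum_congr rfl fun c _ => by ring

theorem st_nm (v : Fin A.a → ℝ) (t : ℕ) : nm (A.st v t) = 1 := by
  induction t with
  | zero =>
    have h : A.st v 0 = (A.U 0).mulVec A.start := rfl
    rw [h, unitary_nm _ (A.un 0)]
    unfold nm
    rw [A.unit, Real.sqrt_one]
  | succ t ih =>
    have h : A.st v (t + 1) = (A.U (t + 1)).mulVec (A.qu v (A.st v t)) := rfl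
    rw [h, unitary_nm _ (A.un _), qu_nm, ih]

theorem qu_diff (v v0 : Fin A.a → ℝ) (x : Fin A.a × Fin A.d → ℂ) :
    nm (fun y => A.qu v x y - A.qu v0 x y) ^ 2 ≤ 4 * ∑ y, ind (v y.1 ≠ v0 y.1) * ‖x y‖ ^ 2 := by
  rw [nm_sq, Fintype.sum_prod_type, Fintype.sum_prod_type, Finset.mul_sum]
  refine Finset.sum_le_sum fun i _ => ?_
  by_cases h : v i = v0 i
  · have h1 : ∀ c, A.qu v x (i, c) - A.qu v0 x (i, c) = 0 := by
      intro c
      unfold Alg.qu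
      simp only [h, sub_self]
    simp only [h1, norm_zero]
    have h2 : 0 ≤ 4 * ∑ c, ind (v i ≠ v0 i) * ‖x (i, c)‖ ^ 2 :=
      mul_nonneg (by norm_num) (Finset.sum_nonneg fun c _ => mul_nonneg (ind_nonneg _) (sq_nonneg _))
    simpa using h2
  · have h1 : ∀ c, ‖A.qu v x (i, c) - A.qu v0 x (i, c)‖ ^ 2 ≤
        2 * ‖A.qu v x (i, c)‖ ^ 2 + 2 * ‖A.qu v0 x (i, c)‖ ^ 2 := by
      intro c
      have h3 := norm_sub_le (A.qu v x (i, c)) (A.qu v0 x (i, c))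
      have h4 : ‖A.qu v x (i, c) - A.qu v0 x (i, c)‖ ^ 2 ≤
          (‖A.qu v x (i, c)‖ + ‖A.qu v0 x (i, c)‖) ^ 2 :=
        pow_le_pow_left₀ (norm_nonneg _) h3 2
      nlinarith [sq_nonneg (‖A.qu v x (i, c)‖ - ‖A.qu v0 x (i, c)‖)]
    calc ∑ c, ‖A.qu v x (i, c) - A.qu v0 x (i, c)‖ ^ 2
        ≤ ∑ c, (2 * ‖A.qu v x (i, c)‖ ^ 2 + 2 * ‖A.qu v0 x (i, c)‖ ^ 2) :=
          Finset.sum_le_sum fun c _ => h1 c
      _ = 2 * ∑ c, ‖A.qu v x (i, c)‖ ^ 2 + 2 * ∑ c, ‖A.qu v0 x (i, c)‖ ^ 2 := by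
          rw [Finset.sum_add_distrib, Finset.mul_sum, Finset.mul_sum]
      _ = 4 * ∑ c, ‖x (i, c)‖ ^ 2 := by
          rw [qu_row, qu_row]; ring
      _ = 4 * ∑ c, ind (v i ≠ v0 i) * ‖x (i, c)‖ ^ 2 := by
          rw [ind_true _ h]
          simp only [one_mul]

theorem pr_diff {ι : Type} [Fintype ι] (S : Finset ι) (a b : ι → ℂ) (ha : nm a = 1)
    (hb : nm b = 1) :
    |∑ x ∈ S, ‖a x‖ ^ 2 - ∑ x ∈ S, ‖b x‖ ^ 2| ≤ 2 * nm (fun x => a x - b x) := by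
  have hA : ∑ x, ‖a x‖ ^ 2 = 1 := by rw [← nm_sq, ha]; norm_num
  have hB : ∑ x, ‖b x‖ ^ 2 = 1 := by rw [← nm_sq, hb]; norm_num
  have h1 : |∑ x ∈ S, ‖a x‖ ^ 2 - ∑ x ∈ S, ‖b x‖ ^ 2| ≤
      ∑ x, ‖a x - b x‖ * (‖a x‖ + ‖b x‖) := by
    rw [← Finset.sum_sub_distrib]
    refine le_trans (Finset.abs_sum_le_sum_abs _ _) ?_
    refine le_trans (Finset.sum_le_sum (g := fun x => ‖a x - b x‖ * (‖a x‖ + ‖b x‖)) ?_) ?_
    · intro x _
      have h2 : ‖a x‖ ^ 2 - ‖b x‖ ^ 2 = (‖a x‖ - ‖b x‖) * (‖a x‖ + ‖b x‖) := by ring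
      rw [h2, abs_mul, abs_of_nonneg (add_nonneg (norm_nonneg (a x)) (norm_nonneg (b x)))]
      exact mul_le_mul_of_nonneg_right (abs_norm_sub_norm_le _ _)
        (add_nonneg (norm_nonneg _) (norm_nonneg _))
    · exact Finset.sum_le_sum_of_subset_of_nonneg (Finset.subset_univ _)
        fun x _ _ => mul_nonneg (norm_nonneg _) (add_nonneg (norm_nonneg _) (norm_nonneg _))
  have h2 := Finset.sum_mul_sq_le_sq_mul_sq Finset.univ (fun x => ‖a x - b x‖)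
    (fun x => ‖a x‖ + ‖b x‖)
  have h3 : ∑ x, (‖a x‖ + ‖b x‖) ^ 2 ≤ 4 := by
    calc ∑ x, (‖a x‖ + ‖b x‖) ^ 2 ≤ ∑ x, (2 * ‖a x‖ ^ 2 + 2 * ‖b x‖ ^ 2) :=
          Finset.sum_le_sum fun x _ => by nlinarith [sq_nonneg (‖a x‖ - ‖b x‖)]
      _ = 4 := by
          rw [Finset.sum_add_distrib, ← Finset.mul_sum, ← Finset.mul_sum, hA, hB]; norm_num
  have h4 : (∑ x, ‖a x - b x‖ * (‖a x‖ + ‖b x‖)) ^ 2 ≤ (2 * nm (fun x => a x - b x)) ^ 2 := by
    refine le_trans h2 ?_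
    rw [mul_pow, nm_sq]
    have h5 : (0 : ℝ) ≤ ∑ x, ‖a x - b x‖ ^ 2 := Finset.sum_nonneg fun _ _ => sq_nonneg _
    nlinarith
  refine le_trans h1 ?_
  exact le_of_sq_le_sq h4 (mul_nonneg (by norm_num) (nm_nonneg _))

theorem step (v v0 : Fin A.a → ℝ) (t : ℕ) :
    nm (fun x => A.st v (t + 1) x - A.st v0 (t + 1) x) ≤ nm (fun x => A.st v t x - A.st v0 t x) +
      Real.sqrt (4 * ∑ x, ind (v x.1 ≠ v0 x.1) * ‖A.st v0 t x‖ ^ 2) := by
  have h1 : (fun x => A.st v (t + 1) x - A.st v0 (t + 1) x) =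
      (A.U (t + 1)).mulVec (fun y => A.qu v (A.st v t) y - A.qu v0 (A.st v0 t) y) := by
    have e : (fun y => A.qu v (A.st v t) y - A.qu v0 (A.st v0 t) y) =
      A.qu v (A.st v t) - A.qu v0 (A.st v0 t) := rfl
    rw [e, Matrix.mulVec_sub]
    rfl
  rw [h1, unitary_nm _ (A.un _)]
  have h2 : (fun y => A.qu v (A.st v t) y - A.qu v0 (A.st v0 t) y) =
      fun y => A.qu v (fun s => A.st v t s - A.st v0 t s) y +
        (A.qu v (A.st v0 t) y - A.qu v0 (A.st v0 t) y) := by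
    funext y
    rw [← qu_sub]
    ring
  rw [h2]
  refine le_trans (nm_add_le (A.qu v (fun s => A.st v t s - A.st v0 t s))
    (fun y => A.qu v (A.st v0 t) y - A.qu v0 (A.st v0 t) y)) ?_
  rw [qu_nm]
  have h3 := qu_diff A v v0 (A.st v0 t)
  have h4 : nm (fun y => A.qu v (A.st v0 t) y - A.qu v0 (A.st v0 t) y) ≤
      Real.sqrt (4 * ∑ x, ind (v x.1 ≠ v0 x.1) * ‖A.st v0 t x‖ ^ 2) :=
    Real.le_sqrt_of_sq_le h3
  linarith

theorem tot (v v0 : Fin A.a → ℝ) (T : ℕ) :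
    nm (fun x => A.st v T x - A.st v0 T x) ≤
      ∑ t ∈ Finset.range T, Real.sqrt (4 * ∑ x, ind (v x.1 ≠ v0 x.1) * ‖A.st v0 t x‖ ^ 2) := by
  induction T with
  | zero =>
    have h : (fun x => A.st v 0 x - A.st v0 0 x) = fun _ => 0 := by
      funext x
      have e : A.st v 0 = A.st v0 0 := rfl
      rw [e, sub_self]
    rw [h]
    unfold nm
    simp
  | succ T ih =>
    rw [Finset.sum_range_succ]
    have := step A v v0 T
    linarith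

end A

theorem pf_HYA : T_HYA := by
  intro γ _ _ q m A v v0
  refine ⟨st_nm A v, ?_, ?_⟩
  · intro T
    have h1 : ∑ x, ‖A.st v T x‖ ^ 2 = 1 := by rw [← nm_sq, st_nm]; norm_num
    refine ⟨Finset.sum_nonneg fun _ _ => sq_nonneg _, ?_⟩
    rw [← h1]
    exact Finset.sum_le_sum_of_subset_of_nonneg (Finset.subset_univ _) fun _ _ _ => sq_nonneg _
  · intro T
    refine ⟨pr_diff A.acc (A.st v T) (A.st v0 T) (st_nm A v T) (st_nm A v0 T), ?_⟩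
    have h1 := tot A v v0 T
    have h2 : nm (fun x => A.st v T x - A.st v0 T x) ^ 2 ≤
        (∑ t ∈ Finset.range T,
          Real.sqrt (4 * ∑ x, ind (v x.1 ≠ v0 x.1) * ‖A.st v0 t x‖ ^ 2)) ^ 2 :=
      pow_le_pow_left₀ (nm_nonneg _) h1 2
    refine le_trans h2 ?_
    refine le_trans sq_sum_le_card_mul_sum_sq ?_
    rw [Finset.card_range]
    have h3 : ∀ t, Real.sqrt (4 * ∑ x, ind (v x.1 ≠ v0 x.1) * ‖A.st v0 t x‖ ^ 2) ^ 2 =
        4 * ∑ x, ind (v x.1 ≠ v0 x.1) * ‖A.st v0 t x‖ ^ 2 := by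
      intro t
      rw [Real.sq_sqrt]
      exact mul_nonneg (by norm_num)
        (Finset.sum_nonneg fun c _ => mul_nonneg (ind_nonneg _) (sq_nonneg _))
    simp only [h3, ← Finset.mul_sum]
    apply le_of_eq
    ring

end Pool.Agent.H33.SQ.HYA
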