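import Pool.Agent.H75.SQ.Basic

/-!
# Quantum statistical algorithms: the first part of the theorem
-/

set_option autoImplicit false

namespace Pool.Agent.H33.SQ.LOA

open Finset Matrix Pool.Agent.H75.SQ

theorem pf_LOA (hLOW : T_LOW) (hPAA : T_PAA) (hWTS : T_WTS) : T_LOA := by
  intro Λ t e hΛ ht htl he
  obtain ⟨a, ha, r₀, n₀, κ, hκ, H⟩ := hPAA Λ t e hΛ ht htl he
  refine ⟨a, ha, r₀, max n₀ 1, ?_⟩
  intro n hn k r q m τ Q hr hQ hQΛ hq hτ hτ1 hqr hm A T hT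
  have hn0 : n₀ ≤ n := le_trans (le_max_left _ _) hn
  have hn1 : 0 < n := lt_of_lt_of_le Nat.zero_lt_one (le_trans (le_max_right _ _) hn)
  have hrk : r ≤ k := (hWTS n k r Q (fun _ => false) hn1 hQ).2.2.2.2.2.2
  have hτ0 : 0 < τ := lt_of_lt_of_le (Real.exp_pos _) hτ
  have hnr : (0 : ℝ) < n := Nat.cast_pos.2 hn1
  have hm0 : 0 < m := by
    have h1 : (0 : ℝ) < 2 ^ k * n ^ 2 * (q + 1) ^ 4 / τ ^ 4 := by positivity
    exact Nat.cast_pos.1 (lt_of_lt_of_le h1 hm)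
  obtain ⟨h1, h2, h3⟩ := H n hn0 k r q m τ T hr hrk hq hτ hτ1 hqr hm hT
  exact hLOW n k r q m Q Λ κ τ ((2 : ℝ) ^ (-(a * n))) A T hn1 hm0 hQ hQΛ hτ0 hτ1 hκ.le h1 h2
    (Real.rpow_pos_of_pos (by norm_num) _) h3

end Pool.Agent.H33.SQ.LOA
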