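import Pool.Agent.H75.SQ.Basic

/-!
# Quantum statistical algorithms: the mean for the centered state
-/

set_option autoImplicit false

namespace Pool.Agent.H33.SQ.REB

open Finset Matrix Pool.Agent.H75.SQ

theorem qf_real {ι : Type} [Fintype ι] (M : Matrix ι ι ℂ) (r : ι → ℝ) :
    qf M (fun x => ((r x : ℝ) : ℂ)) = ∑ x, ∑ y, (M x y).re * (r x * r y) := by
  unfold qf dotProduct Matrix.mulVec dotProduct
  rw [Complex.re_sum]
  refine Finset.sum_congr rfl fun x _ => ?_
  have h1 : (star fun x => ((r x : ℝ) : ℂ)) x = ((r x : ℝ) : ℂ) := by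
    rw [Pi.star_apply]
    exact Complex.conj_ofReal _
  rw [h1, Complex.re_ofReal_mul, Complex.re_sum, Finset.mul_sum]
  refine Finset.sum_congr rfl fun y _ => ?_
  rw [Complex.re_mul_ofReal]
  ring

/-- the centered product -/
noncomputable def cf {γ : Type} [DecidableEq γ] {m q : ℕ} (w : γ → ℝ) (F : Fin m → γ)
    (s : Fin q → Fin m × γ) : ℝ := ∏ i, ((if F (s i).1 = (s i).2 then 1 else 0) - w (s i).2)

/-- the number of permutations -/
noncomputable def nn {γ : Type} {m q : ℕ} (j : Fin q → Fin m) (s : Fin q → Fin m × γ) : ℝ :=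
  ∑ π : Equiv.Perm (Fin q), if (fun i => (s i).1) = fun i => j (π i) then 1 else 0

theorem count (m q : ℕ) (a b : Fin q → Fin m) :
    ∑ j ∈ (Set.toFinite {j : Fin q → Fin m | Function.Injective j}).toFinset,
      (∑ π : Equiv.Perm (Fin q), if a = fun i => j (π i) then (1 : ℝ) else 0) *
      (∑ π : Equiv.Perm (Fin q), if b = fun i => j (π i) then (1 : ℝ) else 0) =
    q.factorial * ((if Function.Injective a then 1 else 0) *
      ∑ π : Equiv.Perm (Fin q), if b = fun i => a (π i) then (1 : ℝ) else 0) := by
  classical
  simp only [Finset.sum_mul]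
  rw [Finset.sum_comm]
  have h1 : ∀ π : Equiv.Perm (Fin q),
      ∑ j ∈ (Set.toFinite {j : Fin q → Fin m | Function.Injective j}).toFinset,
        (if a = fun i => j (π i) then (1 : ℝ) else 0) *
        (∑ π : Equiv.Perm (Fin q), if b = fun i => j (π i) then (1 : ℝ) else 0) =
      (if Function.Injective a then 1 else 0) *
      ∑ π : Equiv.Perm (Fin q), if b = fun i => a (π i) then (1 : ℝ) else 0 := by
    intro π
    have h2 : ∀ j : Fin q → Fin m, a = (fun i => j (π i)) ↔ j = fun i => a (π.symm i) := by
      intro j
      constructor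
      · intro h
        funext i
        rw [h]
        simp
      · intro h
        funext i
        rw [h]
        simp
    by_cases ha : Function.Injective a
    · rw [if_pos ha, one_mul]
      rw [Finset.sum_eq_single (fun i => a (π.symm i))]
      · rw [if_pos ((h2 _).2 rfl), one_mul]
        rw [← Equiv.sum_comp (Equiv.mulLeft π)]
        refine Finset.sum_congr rfl fun ρ _ => ?_
        have h3 : (fun i => a (π.symm ((Equiv.mulLeft π ρ) i))) = fun i => a (ρ i) := by
          funext i
          simp
        rw [h3]
      · intro j _ hj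
        rw [if_neg, zero_mul]
        intro h
        exact hj ((h2 j).1 h)
      · intro h
        exfalso
        apply h
        rw [Set.Finite.mem_toFinset, Set.mem_ofPred_eq]
        intro x y hxy
        exact π.symm.injective (ha hxy)
    · rw [if_neg ha, zero_mul]
      refine Finset.sum_eq_zero fun j hj => ?_
      rw [if_neg, zero_mul]
      intro h
      apply ha
      rw [h]
      rw [Set.Finite.mem_toFinset, Set.mem_ofPred_eq] at hj
      intro x y hxy
      exact π.injective (hj hxy)
  rw [Finset.sum_congr rfl fun π _ => h1 π, Finset.sum_const, Finset.card_univ, Fintype.card_perm,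
    Fintype.card_fin, nsmul_eq_mul]

theorem perm_one (m q : ℕ) (a b : Fin q → Fin m) (ha : Function.Injective a)
    (hb : Function.Injective b) (h : Set.range a = Set.range b) :
    ∑ π : Equiv.Perm (Fin q), (if b = fun i => a (π i) then (1 : ℝ) else 0) = 1 := by
  classical
  let ρ : Equiv.Perm (Fin q) :=
    (Equiv.ofInjective b hb).trans ((Equiv.setCongr h.symm).trans (Equiv.ofInjective a ha).symm)
  have h1 : ∀ i, a (ρ i) = b i := by
    intro i
    have h2 := Equiv.apply_ofInjective_symm ha
      ((Equiv.setCongr h.symm) ((Equiv.ofInjective b hb) i))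
    exact h2
  rw [Finset.sum_eq_single ρ]
  · rw [if_pos]
    funext i
    exact (h1 i).symm
  · intro σ _ hσ
    rw [if_neg]
    intro h2
    apply hσ
    ext i
    have h3 := congrFun h2 i
    rw [← h1 i] at h3
    rw [ha h3]
  · intro h2
    exact absurd (Finset.mem_univ _) h2

theorem perm_zero (m q : ℕ) (a b : Fin q → Fin m) (ha : Function.Injective a)
    (hb : ¬ Function.Injective b) :
    ∑ π : Equiv.Perm (Fin q), (if b = fun i => a (π i) then (1 : ℝ) else 0) = 0 := by
  refine Finset.sum_eq_zero fun π _ => ?_
  rw [if_neg]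
  intro h
  apply hb
  rw [h]
  intro x y hxy
  exact π.injective (ha hxy)

theorem EF_quad {γ : Type} [Fintype γ] [DecidableEq γ] (w : γ → ℝ) (m : ℕ) {ι : Type} [Fintype ι]
    (M : Matrix ι ι ℂ) (K : ι → ι → ℝ) (c : (Fin m → γ) → ι → ℝ) :
    EF w m (fun F => ∑ s, ∑ t, (M s t).re * K s t * (c F s * c F t)) =
      ∑ s, ∑ t, (M s t).re * (K s t * EF w m (fun F => c F s * c F t)) := by
  rw [EF_sum]
  refine Finset.sum_congr rfl fun s _ => ?_
  rw [EF_sum]
  refine Finset.sum_congr rfl fun t _ => ?_
  rw [EF_mul]
  ring

theorem pf_REB (hVAN : T_VAN) : T_REB := by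
  classical
  intro γ _ _ m q w M hm hw
  have hm0 : (0 : ℝ) < m := Nat.cast_pos.2 hm
  have hs0 : 0 < Real.sqrt m := Real.sqrt_pos.2 hm0
  have hL : ∀ F : Fin m → γ, qf M (pj fun s => ∏ i, uv w F (s i)) =
      ∑ s, ∑ t, (M s t).re * (((if Function.Injective (fun i => (s i).1) then (1 : ℝ) else 0) *
        (if Function.Injective (fun i => (t i).1) then (1 : ℝ) else 0)) / m ^ q) *
          (cf w F s * cf w F t) := by
    intro F
    have h1 : (pj fun s : Fin q → Fin m × γ => ∏ i, uv w F (s i)) = fun s =>
        (((if Function.Injective (fun i => (s i).1) then (1 : ℝ) else 0) * (1 / Real.sqrt m) ^ q *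
          cf w F s : ℝ) : ℂ) := by
      funext s
      unfold pj
      by_cases hs : Function.Injective (fun i => (s i).1)
      · rw [if_pos hs, if_pos hs, one_mul]
        unfold uv cf
        change ∏ i, ((1 / Real.sqrt m * ((if F (s i).1 = (s i).2 then 1 else 0) - w (s i).2) : ℝ) : ℂ)
          = _
        rw [← Complex.ofReal_prod, Finset.prod_mul_distrib, Finset.prod_const, Finset.card_univ,
          Fintype.card_fin]
      · rw [if_neg hs, if_neg hs]
        simp
    rw [h1, qf_real]
    refine Finset.sum_congr rfl fun s _ => Finset.sum_congr rfl fun t _ => ?_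
    have h2 : (1 / Real.sqrt m) ^ q * (1 / Real.sqrt m) ^ q = 1 / m ^ q := by
      rw [← mul_pow, div_mul_div_comm, Real.mul_self_sqrt hm0.le]
      rw [one_mul, div_pow, one_pow]
    have h3 : ((if Function.Injective (fun i => (s i).1) then (1 : ℝ) else 0) *
        (if Function.Injective (fun i => (t i).1) then (1 : ℝ) else 0)) / m ^ q =
        ((if Function.Injective (fun i => (s i).1) then (1 : ℝ) else 0) *
        (if Function.Injective (fun i => (t i).1) then (1 : ℝ) else 0)) *
          ((1 / Real.sqrt m) ^ q * (1 / Real.sqrt m) ^ q) := by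
      rw [h2]; ring
    rw [h3]
    ring
  have hq0 : (0 : ℝ) < q.factorial := Nat.cast_pos.2 (Nat.factorial_pos q)
  have hR : ∀ F : Fin m → γ,
      (∑ j ∈ (Set.toFinite {j : Fin q → Fin m | Function.Injective j}).toFinset,
        qf M (syc w F j)) / m ^ q =
      ∑ s, ∑ t, (M s t).re * (((if Function.Injective (fun i => (s i).1) then (1 : ℝ) else 0) *
        ∑ π : Equiv.Perm (Fin q), (if (fun i => (t i).1) = fun i => (s (π i)).1
          then (1 : ℝ) else 0)) / m ^ q) * (cf w F s * cf w F t) := by
    intro F
    have h1 : ∀ j : Fin q → Fin m, qf M (syc w F j) = ∑ s, ∑ t, (M s t).re *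
        (cf w F s * cf w F t) / q.factorial * (nn j s * nn j t) := by
      intro j
      have h2 : syc w F j = fun s => ((1 / Real.sqrt (q.factorial : ℝ) * (nn j s * cf w F s) : ℝ) : ℂ)
          := by
        funext s
        unfold syc nn cf
        rw [Complex.ofReal_mul, Complex.ofReal_mul, Complex.ofReal_sum, Finset.sum_mul]
        congr 1
        refine Finset.sum_congr rfl fun π _ => ?_
        by_cases hp : (fun i => (s i).1) = fun i => j (π i)
        · rw [if_pos hp, if_pos hp, Complex.ofReal_prod, Complex.ofReal_one, one_mul]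
        · rw [if_neg hp, if_neg hp, Complex.ofReal_zero, zero_mul]
      rw [h2, qf_real]
      refine Finset.sum_congr rfl fun s _ => Finset.sum_congr rfl fun t _ => ?_
      have h3 : (1 / Real.sqrt (q.factorial : ℝ)) * (1 / Real.sqrt (q.factorial : ℝ)) =
          1 / q.factorial := by
        rw [div_mul_div_comm, Real.mul_self_sqrt hq0.le, one_mul]
      have h4 : (M s t).re * (1 / Real.sqrt (q.factorial : ℝ) * (nn j s * cf w F s) *
          (1 / Real.sqrt (q.factorial : ℝ) * (nn j t * cf w F t))) =
          (M s t).re * (cf w F s * cf w F t) * ((1 / Real.sqrt (q.factorial : ℝ)) *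
            (1 / Real.sqrt (q.factorial : ℝ))) * (nn j s * nn j t) := by ring
      rw [h4, h3]
      ring
    rw [Finset.sum_congr rfl fun j _ => h1 j]
    rw [Finset.sum_comm, Finset.sum_div]
    refine Finset.sum_congr rfl fun s _ => ?_
    rw [Finset.sum_comm, Finset.sum_div]
    refine Finset.sum_congr rfl fun t _ => ?_
    rw [← Finset.mul_sum]
    have h5 := count m q (fun i => (s i).1) (fun i => (t i).1)
    have h6 : ∑ j ∈ (Set.toFinite {j : Fin q → Fin m | Function.Injective j}).toFinset,
        nn j s * nn j t = q.factorial *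
        ((if Function.Injective (fun i => (s i).1) then (1 : ℝ) else 0) *
        ∑ π : Equiv.Perm (Fin q), (if (fun i => (t i).1) = fun i => (s (π i)).1
          then (1 : ℝ) else 0)) := h5
    rw [h6]
    field_simp
  rw [funext hL, funext hR, EF_quad, EF_quad]
  refine Finset.sum_congr rfl fun s _ => Finset.sum_congr rfl fun t _ => ?_
  congr 1
  by_cases hs : Function.Injective (fun i => (s i).1)
  · rw [if_pos hs, one_mul, one_mul]
    by_cases ht : Function.Injective (fun i => (t i).1)
    · rw [if_pos ht]
      by_cases hr : Set.range (fun i => (s i).1) = Set.range (fun i => (t i).1)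
      · rw [perm_one m q (fun i => (s i).1) (fun i => (t i).1) hs ht hr]
      · have h0 : EF w m (fun F => cf w F s * cf w F t) = 0 :=
          hVAN γ w hw m q (fun i => (s i).1) (fun i => (t i).1) (fun i => (s i).2)
            (fun i => (t i).2) hs ht hr
        rw [h0, mul_zero, mul_zero]
    · rw [if_neg ht, perm_zero m q (fun i => (s i).1) (fun i => (t i).1) hs ht]
  · rw [if_neg hs]
    simp only [zero_mul]

end Pool.Agent.H33.SQ.REB
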